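import Pool.Agent.H440Q.W.Props
import Pool.Agent.H440Q.H2n
import Pool.Agent.H516R2.EQP3.EX
import Pool.Agent.H516R2.EQP.AL
import Pool.Agent.H516R2.EQP.B
import Pool.Agent.H516R2.EQP.H1
import Pool.Agent.H516R2.EQP.H2

/-! # Yes- and no-instances exist -/

set_option autoImplicit false

namespace Pool.Agent.H440Q.W

open Pool.Agent.NPC Pool.Agent.H620R2.Gauge Finset H568R2 Pool.Agent.H676 Pool.Agent.H516R2.EQP
  Pool.Agent.H516R2.EQP2 Pool.Agent.H516R2.EQP3 Pool.Agent.H516R2.EQP4 Pool.Agent.H591R3.PHG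

theorem EX : St_EX := by
  intro κ hκ b
  obtain ⟨n, rfl⟩ : ∃ n, κ = n + 1 := ⟨κ - 1, by omega⟩
  have h8 : (0 : ℤ) < 8 ^ n := by positivity
  have hyes : YesO (Sum.elim (EX_a n) (fun _ => false) : Cube (n + 1) → Bool) := by
    unfold YesO
    rw [H1_sum_elim_inl, EX_FF, pow_succ]
    linarith
  cases b
  · refine ⟨H2_e (Sum.elim (EX_a n) (fun _ => false) : Cube (n + 1) → Bool), ?_⟩
    have h := H2n_flip _ hyes
    unfold Inst
    rw [if_neg Bool.false_ne_true]
    exact h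
  · refine ⟨(Sum.elim (EX_a n) (fun _ => false) : Cube (n + 1) → Bool), ?_⟩
    unfold Inst
    rw [if_pos rfl]
    exact hyes

end Pool.Agent.H440Q.W
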