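import Pool.Agent.H440Q.W.Props

set_option autoImplicit false

namespace Pool.Agent.H440Q.W

open Pool.Agent.NPC Pool.Agent.H620R2.Gauge Finset H568R2 Pool.Agent.H676 Pool.Agent.H516R2.EQP
  Pool.Agent.H516R2.EQP2 Pool.Agent.H516R2.EQP3 Pool.Agent.H516R2.EQP4 Pool.Agent.H591R3.PHG

theorem HY_fil (hp : St_PU) {u : List Bool} (a : Cube (kap u) → Bool) :
    ∀ (us : List (List Bool)) (ω : FT us) (B : Oracle), u ∉ us →
      fil us ω (put u a B) = put u a (fil us ω B) := by
  obtain ⟨p1, p2, p3, p4, p5, p6, p7⟩ := hp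
  intro us
  induction us with
  | nil => intro ω B _; rfl
  | cons v us ih =>
    intro ω B hu
    have hne : v ≠ u := fun h => hu (by simp [h])
    have hu' : u ∉ us := fun h => hu (by simp [h])
    show fil us ω.2 (put v ω.1 (put u a B)) = put u a (fil us ω.2 (put v ω.1 B))
    rw [p4 v u ω.1 a B hne, ih ω.2 _ hu']

theorem HY (hp : St_PU) (hst : St_ST) : St_HY := by
  intro J p
  obtain ⟨m₀, hm⟩ := hst J p
  refine ⟨m₀, ?_⟩
  intro us
  induction us with
  | nil =>
    intro _ _ hid G _ B hVG
    have h : G B = true := hVG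
    show 1 - (([] : List ℝ)).sum ≤ (∑ ω : Unit, if G B then (1 : ℝ) else 0) / (Fintype.card Unit : ℝ)
    simp [h]
  | cons u us ih =>
    intro hnd hmu hid G hG B hVG
    have hu : u ∉ us := (List.nodup_cons.mp hnd).1
    have hnd' : us.Nodup := (List.nodup_cons.mp hnd).2
    have hmu' : ∀ v ∈ us, m₀ ≤ mu v ∧ 1 ≤ p.eval (kap v) := fun v hv => hmu v (by simp [hv])
    have IH := ih hnd' hmu' hid G (fun v hv => hG v (by simp [hv]))
    set ε : ℝ := (us.map (fun u => (1 / 2 : ℝ) ^ mu u)).sum with hε
    have hε0 : 0 ≤ ε := by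
      apply List.sum_nonneg
      intro x hx
      obtain ⟨v, _, rfl⟩ := List.mem_map.mp hx
      positivity
    have hmm := hmu u (by simp)
    have key := hm (mu u) hmm.1 hmm.2 (FT us) (fun ω a => G (fil us ω (put u a B))) ε (hid u B) hε0
      (by
        intro ω
        have h1 : (fun a => G (fil us ω (put u a B))) = fun a => G (put u a (fil us ω B)) := by
          funext a
          rw [HY_fil hp a us ω B hu]
        show Goods (kap u) (p.eval (kap u)) J (fun a => G (fil us ω (put u a B)))
        rw [h1]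
        exact hG u (by simp) _)
      (by
        intro a hI
        have h1 : VG hid G us (put u a B) := hVG a hI
        exact IH (put u a B) h1)
    have hcard : (Fintype.card (FT (u :: us)) : ℝ) =
        (Fintype.card (Cube (kap u) → Bool) : ℝ) * (Fintype.card (FT us) : ℝ) := by
      have : Fintype.card (FT (u :: us)) = Fintype.card ((Cube (kap u) → Bool) × FT us) := rfl
      rw [this, Fintype.card_prod, Nat.cast_mul]
    have hsum : (∑ ω : FT (u :: us), if G (fil (u :: us) ω B) then (1 : ℝ) else 0) =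
        ∑ ω : FT us, ∑ a : Cube (kap u) → Bool, if G (fil us ω (put u a B)) then (1 : ℝ) else 0 := by
      have : (∑ ω : FT (u :: us), if G (fil (u :: us) ω B) then (1 : ℝ) else 0) =
        ∑ q : (Cube (kap u) → Bool) × FT us, if G (fil us q.2 (put u q.1 B)) then (1 : ℝ) else 0 :=
        rfl
      rw [this, Fintype.sum_prod_type, Finset.sum_comm]
    have h2 : (∑ ω : FT us, av (br (fun a => G (fil us ω (put u a B))))) / (Fintype.card (FT us) : ℝ) =
        (∑ ω : FT (u :: us), if G (fil (u :: us) ω B) then (1 : ℝ) else 0) /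
          (Fintype.card (FT (u :: us)) : ℝ) := by
      rw [hsum, hcard]
      have h3 : (Fintype.card (Cube (kap u) → Bool) : ℝ) = 2 ^ Fintype.card (Cube (kap u)) := by
        rw [Fintype.card_fun, Fintype.card_bool, Nat.cast_pow, Nat.cast_ofNat]
      rw [h3]
      have h4 : ∀ ω : FT us, av (br (fun a => G (fil us ω (put u a B)))) =
        (∑ a : Cube (kap u) → Bool, if G (fil us ω (put u a B)) then (1 : ℝ) else 0) /
          2 ^ Fintype.card (Cube (kap u)) := fun ω => rfl
      simp only [h4]
      rw [← Finset.sum_div, div_div]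
    have h5 : 1 - ((u :: us).map (fun u => (1 / 2 : ℝ) ^ mu u)).sum = 1 - ε - (1 / 2) ^ mu u := by
      rw [List.map_cons, List.sum_cons, ← hε]
      ring
    rw [h5, ← h2]
    exact key

end Pool.Agent.H440Q.W
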