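import Pool.Agent.H440Q.W.Props
import Pool.Agent.H440Q.PIn
import Pool.Agent.H516R2.EQP3.PU

/-! Facts about the blocks (adapted from `Pool.Agent.H516R2.EQP3.PU`) -/

set_option autoImplicit false

namespace Pool.Agent.H440Q.W

open Pool.Agent.NPC Pool.Agent.H620R2.Gauge Finset H568R2 Pool.Agent.H676 Pool.Agent.H516R2.EQP
  Pool.Agent.H516R2.EQP2 Pool.Agent.H516R2.EQP3 Pool.Agent.H516R2.EQP4 Pool.Agent.H591R3.PHG

theorem PU_al (u : List Bool) (A A' : Oracle) (h : ∀ z, InB u z → A z = A' z) :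
    al u A = al u A' := by
  unfold al
  congr 1
  refine OV_local _ _ _ fun w hw => ?_
  unfold tlU
  exact h _ (PU_mem u w hw)

theorem PU_val (u : List Bool) (a : Cube (kap u) → Bool) (B : Oracle) :
    valO (tlU u (put u a B)) (kap u) = (FF (fun i => a (Sum.inl i)) : ℝ) / 8 ^ (kap u) := by
  rw [← OV_emb (kap u) B a]
  refine OV_local _ _ _ fun w hw => ?_
  unfold tlU
  show Pool.Agent.H516R2.EQP3.put u (sgm a) B (false :: false :: (u ++ w)) =
    emb (kap u) B (sgm a) w
  unfold Pool.Agent.H516R2.EQP3.put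
  rw [if_pos (PU_mem u w hw), PU_drop]

theorem PU : St_PU := by
  refine ⟨PU_inj, fun u z a B h => PU_off u z (sgm a) B h, fun u z a B B' h =>
    PU_on u z (sgm a) B B' h, fun u v a b B h => PU_comm u v (sgm a) (sgm b) B h, PU_al,
    fun u a B => ⟨fun h => ?_, fun h => ?_⟩, ?_⟩
  · unfold al
    rw [PU_val]
    exact dec_yes (YesO_div a h)
  · unfold al
    rw [PU_val]
    exact dec_no (NoO_div a h)
  · intro u z B
    by_cases h : InB u z
    · have e : ∀ a : Cube (kap u) → Bool,
          put u a B z = emb (kap u) B (sgm a) (z.drop (2 + u.length)) := by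
        intro a
        unfold put Pool.Agent.H516R2.EQP3.put
        rw [if_pos h]
      rcases DE_form (kap u) B (z.drop (2 + u.length)) with ⟨c, hc⟩ | ⟨i, c, hc⟩
      · exact Or.inl ⟨c, fun a => by rw [e, hc]⟩
      · rcases i with (j | j) | j
        · exact Or.inr ⟨Sum.inl (Sum.inl j), c, fun a => by rw [e, hc, Bool.xor_comm]; rfl⟩
        · exact Or.inr ⟨Sum.inl (Sum.inr (sw j)), c, fun a => by rw [e, hc, Bool.xor_comm]; rfl⟩
        · exact Or.inr ⟨Sum.inr j, c, fun a => by rw [e, hc, Bool.xor_comm]; rfl⟩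
    · exact Or.inl ⟨B z, fun a => PU_off u z (sgm a) B h⟩

end Pool.Agent.H440Q.W
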