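import Pool.Agent.H440Q.W.Props
import Pool.Agent.H440Q.QIn
import Pool.Agent.H516R2.EQP3.QU

/-! The circuits for the blocks -/

set_option autoImplicit false

namespace Pool.Agent.H440Q.W

open Pool.Agent.NPC Pool.Agent.H620R2.Gauge Finset H568R2 Pool.Agent.H676 Pool.Agent.H516R2.EQP
  Pool.Agent.H516R2.EQP2 Pool.Agent.H516R2.EQP3 Pool.Agent.H516R2.EQP4 Pool.Agent.H591R3.PHG

/-- the qubits which contain the prefix -/
def QU_preO (u : List Bool) : List ℕ :=
  (6 + 3 * kap u) :: (6 + 3 * kap u) :: u.map (fun b => bif b then 3 else 6 + 3 * kap u)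

theorem QU_preOP : NPC.Poly QU_preO := by
  have h : NPC.Poly (fun u : List Bool => (6 + 3 * kap u) :: (6 + 3 * kap u) ::
      u.map (fun b => bif b then 3 else 6 + 3 * kap u)) :=
    NPC.Poly.cons QU_n (NPC.Poly.cons QU_n
      (NPC.Poly.map (F := fun (u : List Bool) (b : Bool) => bif b then 3 else 6 + 3 * kap u)
        NPC.Poly.id (NPC.Poly.cond (NPC.Poly.snd NPC.Poly.id) (NPC.Poly.const 3)
          (QU_n.comp (NPC.Poly.fst NPC.Poly.id)))))
  exact h

theorem QU_preO_mem (u : List Bool) : ∀ j ∈ QU_preO u, j = 3 ∨ j = 6 + 3 * kap u := by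
  intro j hj
  unfold QU_preO at hj
  rw [List.mem_cons, List.mem_cons, List.mem_map] at hj
  rcases hj with hj | hj | ⟨b, -, hj⟩
  · exact Or.inr hj
  · exact Or.inr hj
  · cases b
    · exact Or.inr hj.symm
    · exact Or.inl hj.symm

theorem QU_preO_map (u : List Bool) :
    (QU_preO u).map (fun j => decide (j = 3)) = false :: false :: u := by
  have h6 : decide (6 + 3 * kap u = 3) = false := by
    rw [decide_eq_false_iff_not]
    omega
  unfold QU_preO
  rw [List.map_cons, List.map_cons, h6, List.map_map]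
  congr 2
  have : ((fun j => decide (j = 3)) ∘ fun b : Bool => bif b then 3 else 6 + 3 * kap u) = id := by
    funext b
    cases b
    · exact h6
    · rfl
  rw [this, List.map_id]

theorem QU_accO (A : Oracle) (u : List Bool) :
    accProb A (circO (QU_preO u) (kap u)) = (1 + valO (tlU u A) (kap u)) / 2 := by
  rw [OC_main (kap u) _ A (QU_preO_mem u), QU_preO_map]
  rfl

theorem QU : St_QU := by
  refine ⟨fun u => circO (QU_preO u) (kap u), polyTime_bits (OQ_circP QU_preOP QU_kap),
    fun u => ⟨(OQ_queries _ _).le, fun A => ⟨fun h => ?_, fun h => ?_⟩⟩⟩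
  · rw [QU_accO]
    have := dec_half h
    linarith
  · rw [QU_accO]
    have := dec_zero h
    linarith

end Pool.Agent.H440Q.W
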