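import Pool.Agent.H440Q.W.Props
import Pool.Agent.H516R2.EQP.H1

/-!
# Averages of good functions which accept all yes-instances
(adapted from `EQP/H1.lean` and `EQP2/H1p.lean`)
-/

set_option autoImplicit false

namespace Pool.Agent.H440Q.W

open Pool.Agent.NPC Pool.Agent.H620R2.Gauge Finset H568R2 Pool.Agent.H676 Pool.Agent.H516R2.EQP
  Pool.Agent.H516R2.EQP2 Pool.Agent.H516R2.EQP3 Pool.Agent.H516R2.EQP4 Pool.Agent.H591R3.PHG

section
variable {Ω : Type} [Fintype Ω]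

theorem STY_co {I : Type} [Fintype I] [DecidableEq I] (f : Ω → (I → Bool) → ℝ) (c : ℝ)
    (S : I → Bool) :
    co (fun x => (∑ ω, f ω x) / c) S = (∑ ω, co (f ω) S) / c := by
  unfold co av
  have h : ∀ x : I → Bool, (∑ ω, f ω x) / c * ch S x = (∑ ω, f ω x * ch S x) / c := by
    intro x
    rw [div_mul_eq_mul_div, Finset.sum_mul]
  simp_rw [h]
  rw [← Finset.sum_div, ← Finset.sum_div, Finset.sum_comm, div_div, div_div, mul_comm]

theorem STY_L12 {V : Type} [Fintype V] [DecidableEq V] (f : Ω → (V ⊕ V → Bool) → ℝ) {c : ℝ}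
    (hc : 0 < c) : L12 (fun x => (∑ ω, f ω x) / c) ≤ (∑ ω, L12 (f ω)) / c := by
  unfold L12
  have e : (∑ ω, ∑ i : V, ∑ j : V, |co (f ω) (pr (Sum.inl i) (Sum.inr j))|) / c =
      ∑ i : V, ∑ j : V, (∑ ω, |co (f ω) (pr (Sum.inl i) (Sum.inr j))|) / c := by
    rw [Finset.sum_comm, Finset.sum_div]
    refine Finset.sum_congr rfl fun i _ => ?_
    rw [Finset.sum_comm, Finset.sum_div]
  rw [e]
  refine Finset.sum_le_sum fun i _ => Finset.sum_le_sum fun j _ => ?_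
  rw [STY_co, abs_div, abs_of_pos hc]
  exact div_le_div_of_nonneg_right (Finset.abs_sum_le_sum_abs _ _) hc.le

theorem STY_av {I : Type} [Fintype I] [DecidableEq I] (f : Ω → (I → Bool) → ℝ) (c : ℝ) :
    av (fun x => (∑ ω, f ω x) / c) = (∑ ω, av (f ω)) / c := by
  unfold av
  rw [← Finset.sum_div, ← Finset.sum_div, Finset.sum_comm, div_div, div_div, mul_comm]

end

theorem STY_le_av {I : Type} [Fintype I] [DecidableEq I] {f : (I → Bool) → ℝ} {b : ℝ}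
    (h : ∀ x, b ≤ f x) : b ≤ av f := by
  have h1 := H1_av_nonneg (f := fun x => f x - b) (fun x => sub_nonneg.2 (h x))
  have h2 : av (fun x => f x - b) = av f - b := by
    unfold av
    rw [Finset.sum_sub_distrib, sub_div]
    congr 1
    rw [Finset.sum_const, Finset.card_univ, Fintype.card_fun, Fintype.card_bool]
    simp
  rw [h2] at h1
  linarith

theorem STY_yes {κ m : ℕ} (hm : 3 ≤ m) (hκ : 8 * m = κ) (a : U κ ⊕ U κ → Bool) (z : W κ → Bool)
    (h : |(FF a : ℝ) / 8 ^ κ - 2 / 5| ≤ (4 ^ m + 1) / 2 ^ κ) : YesO (Sum.elim a z : Cube κ → Bool) := by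
  unfold YesO
  rw [H1_sum_elim_inl]
  have h1 := (abs_le.1 h).1
  have hy8 : (8 : ℝ) ≤ 2 ^ m := by
    calc (8 : ℝ) = 2 ^ 3 := by norm_num
      _ ≤ 2 ^ m := pow_le_pow_right₀ (by norm_num) hm
  have p4 : (4 : ℝ) ^ m = (2 ^ m) ^ 2 := by
    rw [← pow_mul, mul_comm m 2, pow_mul]; norm_num
  have p2 : (2 : ℝ) ^ κ = (2 ^ m) ^ 8 := by
    rw [← pow_mul, mul_comm m 8, hκ]
  have h3 : ((4 : ℝ) ^ m + 1) / 2 ^ κ ≤ 1 / 20 := by
    rw [div_le_div_iff₀ (by positivity) (by norm_num), p4, p2]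
    generalize (2 : ℝ) ^ m = y at hy8
    have e1 : (8 : ℝ) ^ 6 ≤ y ^ 6 := pow_le_pow_left₀ (by norm_num) hy8 6
    have e2 : (0 : ℝ) < y ^ 2 := by positivity
    have e3 : (8 : ℝ) ^ 6 * y ^ 2 ≤ y ^ 8 := by
      calc (8 : ℝ) ^ 6 * y ^ 2 ≤ y ^ 6 * y ^ 2 := by gcongr
        _ = y ^ 8 := by ring
    have e4 : (64 : ℝ) ≤ y ^ 2 := by nlinarith
    have e5 : (8 : ℝ) ^ 6 = 262144 := by norm_num
    rw [e5] at e3
    linarith
  have h4 : (1 : ℝ) / 3 ≤ (FF a : ℝ) / 8 ^ κ := by linarith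
  rw [div_le_div_iff₀ (by norm_num) (by positivity)] at h4
  have h5 : ((8 : ℤ) ^ κ : ℝ) ≤ 3 * (FF a : ℝ) := by
    push_cast
    linarith
  exact_mod_cast h5

theorem STY (hl : St_L2p) (hcm : St_CMq) (has : St_ASq) :
    St_STY := by
  intro J p
  obtain ⟨m₀, hm₀, hASq⟩ := has J p
  refine ⟨m₀, fun m hm => ?_⟩
  have hm3 : 3 ≤ m := hm₀.trans hm
  have hAS' := hASq m hm (p.eval (8 * m)) rfl
  have hcm' := hcm m
  clear hASq hcm
  generalize hκ : 8 * m = κ at hAS' hcm' ⊢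
  generalize htdef : p.eval κ = t at hAS' ⊢
  intro ht Ω _ _ h ε hε0 hgood hyes
  have hAS := hAS' ht
  clear hAS'
  set c : ℝ := (Fintype.card Ω : ℝ) with hc
  have hc0 : 0 < c := by rw [hc]; exact_mod_cast Fintype.card_pos
  have ht0 : (0 : ℝ) < t := by exact_mod_cast ht
  have ht1 : (1 : ℝ) ≤ t := by exact_mod_cast ht
  set q : ℝ := 1 / (24 * (t : ℝ)) with hq
  have hq0 : 0 < q := by positivity
  have hq3 : q ≤ 1 / 3 := by
    rw [hq]
    exact one_div_le_one_div_of_le (by norm_num) (by linarith)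
  have hQ0 : 0 < q ^ J := pow_pos hq0 J
  have hQ1 : q ^ J ≤ 1 := pow_le_one₀ hq0.le (by linarith)
  have hε16 : (0 : ℝ) ≤ (1 / 16) ^ κ := by positivity
  have hcW : Fintype.card (W κ) = 8 ^ κ := B_cardW κ
  have hcU : Fintype.card (U κ) = 4 ^ κ := B_cardU κ
  -- powers of two
  set y : ℝ := 2 ^ m with hy
  have hy8 : (8 : ℝ) ≤ y := by
    calc (8 : ℝ) = 2 ^ 3 := by norm_num
      _ ≤ 2 ^ m := pow_le_pow_right₀ (by norm_num) hm3
  have hy0 : 0 < y := by linarith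
  have p4 : (4 : ℝ) ^ m = y ^ 2 := by
    rw [hy, ← pow_mul, mul_comm m 2, pow_mul]; norm_num
  have p16 : (16 : ℝ) ^ m = y ^ 4 := by
    rw [hy, ← pow_mul, mul_comm m 4, pow_mul]; norm_num
  have p2κ : (2 : ℝ) ^ κ = y ^ 8 := by
    rw [hy, ← pow_mul, mul_comm m 8, hκ]
  have p8κ : (8 : ℝ) ^ κ = y ^ 24 := by
    rw [hy, ← pow_mul, ← hκ, show m * 24 = 3 * (8 * m) by ring, pow_mul 2 3]; norm_num
  have p18 : (2 : ℝ) ^ (18 * m) = y ^ 18 := by
    rw [hy, ← pow_mul, mul_comm m 18]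
  have p22 : (2 : ℝ) ^ (22 * m) = y ^ 22 := by
    rw [hy, ← pow_mul, mul_comm m 22]
  have psq : Real.sqrt ((8 : ℝ) ^ κ) = y ^ 12 := by
    rw [p8κ, show y ^ 24 = (y ^ 12) ^ 2 by ring]
    exact Real.sqrt_sq (by positivity)
  -- the error
  set δ : ℝ := 1 / 16 ^ m + 4 / 8 ^ κ +
    2 * 2 ^ (22 * m) * (1 - q ^ J) ^ (4 ^ m / 4) + (1 / 16) ^ κ + 6 * t / 16 ^ m with hδ
  have h1q : 0 ≤ 1 - q ^ J := by linarith
  have hδ0 : 0 ≤ δ := by
    rw [hδ]
    positivity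
  set ℓ : ℝ := ((24 * (t : ℝ)) ^ J) ^ 2 * ((t : ℝ) ^ 2 + 1) with hℓ
  have hℓ0 : 0 ≤ ℓ := by positivity
  set g : (U κ ⊕ U κ → Bool) → ℝ := fun a =>
    (∑ ω, av (fun z : W κ → Bool => br (h ω) (Sum.elim a z))) / c with hg
  -- the average of `g`
  have havg : (∑ ω, av (br (h ω))) / c = av g := by
    rw [hg, STY_av]
    congr 1
    refine Finset.sum_congr rfl fun ω _ => ?_
    rw [H1_av_sum (I := U κ ⊕ U κ) (J := W κ)]
  have hg01 : ∀ a, 0 ≤ g a ∧ g a ≤ 1 := by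
    intro a
    constructor
    · exact div_nonneg (Finset.sum_nonneg fun ω _ => H1_av_nonneg fun z => (H1_br01 _ _).1) hc0.le
    · rw [hg]
      simp only
      rw [div_le_one hc0]
      calc ∑ ω, av (fun z : W κ → Bool => br (h ω) (Sum.elim a z)) ≤ ∑ _ω : Ω, (1 : ℝ) :=
            Finset.sum_le_sum fun ω _ => av_le fun z => (H1_br01 _ _).2
        _ = c := by rw [Finset.sum_const, Finset.card_univ, nsmul_eq_mul, mul_one]
  -- (1)
  have step1 : ∀ a, |(FF a : ℝ) / 8 ^ κ - 2 / 5| ≤ (4 ^ m + 1) / 2 ^ κ → 1 - ε ≤ g a := by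
    intro a ha
    have h1 : g a = av (fun z : W κ → Bool => (∑ ω, br (h ω) (Sum.elim a z)) / c) := by
      rw [STY_av (fun ω (z : W κ → Bool) => br (h ω) (Sum.elim a z)) c]
    rw [h1]
    exact STY_le_av fun z => hyes _ (STY_yes hm3 hκ a z ha)
  -- (2)
  have step2 : ∀ ρ, L12 (rr g ρ) ≤ ℓ := by
    intro ρ
    have h1 : rr g ρ = fun x => (∑ ω, av (fun z : W κ → Bool =>
        rr (br (fun a' => h ω (Sum.elim a' z))) ρ x)) / c := by
      funext x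
      rfl
    rw [h1]
    refine (STY_L12 (fun ω x => av (fun z : W κ → Bool =>
        rr (br (fun a' => h ω (Sum.elim a' z))) ρ x)) hc0).trans ?_
    rw [div_le_iff₀ hc0]
    have h5 : ∀ ω, L12 (fun x => av (fun z : W κ → Bool =>
        rr (br (fun a' => h ω (Sum.elim a' z))) ρ x)) ≤ ℓ := by
      intro ω
      refine (H1_L12_av _).trans (av_le fun z => ?_)
      have h2 := hl (U κ) t (q ^ J) ((1 / 16) ^ κ) (fun a' => h ω (Sum.elim a' z)) hQ0 hQ1 hε16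
        ((hgood ω).1 z) ρ
      refine h2.trans ?_
      rw [hcU]
      have h3 : 1 / q ^ J = (24 * (t : ℝ)) ^ J := by
        rw [hq, one_div_pow, one_div_one_div]
      rw [h3]
      have h4 : ((1 : ℝ) / 16) ^ κ * (((4 ^ κ : ℕ) : ℝ)) ^ 2 ≤ 1 := by
        have h5 : (((4 ^ κ : ℕ) : ℝ)) ^ 2 = 16 ^ κ := by
          push_cast
          rw [← pow_mul, mul_comm κ 2, pow_mul]
          norm_num
        rw [h5, ← mul_pow]
        norm_num
      rw [hℓ]
      gcongr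
    calc ∑ ω, L12 (fun x => av (fun z : W κ → Bool =>
          rr (br (fun a' => h ω (Sum.elim a' z))) ρ x)) ≤ ∑ _ω : Ω, ℓ :=
          Finset.sum_le_sum fun ω _ => h5 ω
      _ = ℓ * c := by rw [Finset.sum_const, Finset.card_univ, nsmul_eq_mul, mul_comm]
  -- (3)
  have hAS' : (10 + 5 * ℓ) / 4 ^ m + δ ≤ (1 / 2) ^ m := hAS
  have hpos : 0 ≤ (10 + 5 * ℓ) / 4 ^ m := by positivity
  rw [havg]
  have hav0 : 0 ≤ av g := H1_av_nonneg fun a => (hg01 a).1
  by_cases hbig : ε ≤ 1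
  · have h3 := hcm' g ℓ ε hm3 hg01 hℓ0 step2 hε0 hbig step1
    linarith
  · push Not at hbig
    linarith

end Pool.Agent.H440Q.W
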