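import Pool.Agent.H440Q.W.Props

set_option autoImplicit false

namespace Pool.Agent.H440Q.W

open Pool.Agent.NPC Pool.Agent.H620R2.Gauge Finset H568R2 Pool.Agent.H676 Pool.Agent.H516R2.EQP
  Pool.Agent.H516R2.EQP2 Pool.Agent.H516R2.EQP3 Pool.Agent.H516R2.EQP4 Pool.Agent.H591R3.PHG

theorem VL_len {u z : List Bool} (h : InB u z) : u.length < z.length := by
  rw [h.2, blen]
  omega

theorem VL (hp : St_PU) : St_VL := by
  obtain ⟨p1, p2, p3, p4, p5, p6, p7⟩ := hp
  intro Φ hid C hΦ hH us n N hnd hpw hus G B hB hG
  -- the hidden answer does not depend on long strings
  have hloc : ∀ (v : List Bool) (A A' : Oracle), (∀ w : List Bool, w.length ≤ v.length → A w = A' w) →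
      hid v (Φ A) = hid v (Φ A') := by
    intro v A A' h
    exact hH v _ _ (fun z hz => hΦ A A' z (fun w hw => h w (hw.trans hz)))
  have main : ∀ (todo done : List (List Bool)) (Bc : Oracle), us = done ++ todo →
      (∀ z, (∀ u ∈ done, ¬ InB u z) → Bc z = B z) →
      (∀ u ∈ done, (al u Bc = 0 ∨ al u Bc = 1 / 2) ∧
        (al u Bc = 1 / 2 ↔ hid u (Φ Bc) = true)) →
      VG (fun u A => hid u (Φ A)) G todo Bc := by
    intro todo
    induction todo with
    | nil =>
      intro done Bc hd ha hb
      rw [List.append_nil] at hd
      subst hd
      show G Bc = true
      refine hG Bc ha (fun v hv => ?_)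
      by_cases hvm : v ∈ us
      · exact ⟨(hb v hvm).1, fun _ => (hb v hvm).2⟩
      · have hal : al v Bc = al v B := by
          apply p5
          intro z hz
          apply ha
          intro u hu hzu
          exact hvm (p1 u v z hzu hz ▸ hu)
        have hc := hB v hvm hv
        refine ⟨by rw [hal]; exact hc.1, fun hC => ?_⟩
        rw [hal, hc.2 hC]
        have hvn : v.length ≤ n := by
          by_contra hcon
          exact hvm ((hus v).mpr ⟨not_le.mp hcon, hv, hC⟩)
        have : hid v (Φ Bc) = hid v (Φ B) := by
          apply hloc
          intro w hw
          apply ha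
          intro u hu hwu
          have h1 := VL_len hwu
          have h2 := ((hus u).mp hu).1
          omega
        rw [this]
    | cons u todo ih =>
      intro done Bc hd ha hb
      intro a hI
      have hnd' : (done ++ u :: todo).Nodup := hd ▸ hnd
      have hpw' : (done ++ u :: todo).Pairwise (fun u v => u.length ≤ v.length) := hd ▸ hpw
      have hudone : ∀ v ∈ done, v ≠ u := by
        intro v hv h
        subst h
        have := (List.nodup_append.mp hnd').2.2 v hv v (by simp)
        exact this rfl
      have hle : ∀ v ∈ done, v.length ≤ u.length := by
        intro v hv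
        exact (List.pairwise_append.mp hpw').2.2 v hv u (by simp)
      have hput : ∀ w : List Bool, w.length ≤ u.length → put u a Bc w = Bc w := by
        intro w hw
        apply p2
        intro h
        have := VL_len h
        omega
      refine ih (done ++ [u]) (put u a Bc) (by rw [hd]; simp) ?_ ?_
      · intro z hz
        rw [p2 u z a Bc (hz u (by simp))]
        exact ha z (fun v hv => hz v (by simp [hv]))
      · intro v hv
        rcases List.mem_append.mp hv with hv | hv
        · have hne := hudone v hv
          have h1 : al v (put u a Bc) = al v Bc := by
            apply p5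
            intro z hz
            apply p2
            intro hz'
            exact hne (p1 v u z hz hz')
          have h2 : hid v (Φ (put u a Bc)) = hid v (Φ Bc) :=
            hloc v _ _ (fun w hw => hput w (hw.trans (hle v hv)))
          rw [h1, h2]
          exact hb v hv
        · have hvu : v = u := by simpa using hv
          subst hvu
          have h2 : hid v (Φ (put v a Bc)) = hid v (Φ Bc) := hloc v _ _ hput
          rw [h2]
          have hI' : Inst (hid v (Φ Bc)) a := hI
          cases hh : hid v (Φ Bc) with
          | true =>
            rw [hh] at hI'
            have hy : YesO a := by simpa [Inst] using hI'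
            have := (p6 v a Bc).1 hy
            rw [this]
            exact ⟨Or.inr rfl, by simp⟩
          | false =>
            rw [hh] at hI'
            have hy : NoO a := by simpa [Inst] using hI'
            have := (p6 v a Bc).2 hy
            rw [this]
            exact ⟨Or.inl rfl, by norm_num⟩
  exact main us [] B rfl (fun z _ => rfl) (by simp)

end Pool.Agent.H440Q.W
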