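import Pool.Agent.H440Q.W.ST
import Pool.Agent.H440Q.W.STY
import Pool.Agent.H440Q.W.EX
import Pool.Agent.H440Q.W.PU
import Pool.Agent.H440Q.W.QU
import Pool.Agent.H440Q.W.HY
import Pool.Agent.H440Q.W.CL
import Pool.Agent.H440Q.W.VL
import Pool.Agent.H440Q.W.GX
import Pool.Agent.H440Q.W.XS
import Pool.Agent.H440Q.W.FX
import Pool.Agent.H516R2.EQP3.All

/-! # The assembly: `P = PH`, `PSPACE ⊆ BQP` with one question -/

set_option autoImplicit false

namespace Pool.Agent.H440Q.W

open Pool.Agent.H516R2.EQP Pool.Agent.H516R2.EQP2 Pool.Agent.H516R2.EQP3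

theorem all_ST : St_ST := ST (STY (L2p L1) all_CMq ASq)

theorem all_CL : St_CL := CL PU EX

theorem all_HY : St_HY := HY PU all_ST

theorem all_VL : St_VL := VL PU

theorem all_FX : St_FX :=
  FX PU QU PS all_CL DG
    (XS PU (GX PU RT (SW LO RT)) all_HY all_CL BL all_VL) CO CP LO

end Pool.Agent.H440Q.W
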