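import Pool.Agent.H440Q.W.Props
import Pool.Agent.H440Q.W.QU
import Pool.Agent.H440Q.OCS
import Pool.Agent.H516R2.EQP4.QUg
import Pool.Agent.H516R2.EQP3.PU
import Pool.Agent.H516R2.EQP5.QI

/-! # The circuits for the padded blocks -/

set_option autoImplicit false

namespace Pool.Agent.H440Q.W

open Pool.Agent.NPC Pool.Agent.H620R2.Gauge Finset H568R2 Pool.Agent.H676 Pool.Agent.H516R2.EQP
  Pool.Agent.H516R2.EQP2 Pool.Agent.H516R2.EQP3 Pool.Agent.H516R2.EQP4 Pool.Agent.H516R2.EQP5 Pool.Agent.H591R3.PHG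

/-! ### number of questions, polynomial time -/

theorem OQS_queries (P S : List ℕ) (κ : ℕ) : queries (circS P S κ) = 1 := by
  show QC_cnt (Sum.inr (false, [], 1) :: Sum.inr (false, [], 2) :: Sum.inl 2 ::
    Sum.inr (false, [], 3) :: (midQ κ).map nt ++ (midQ κ).map had ++
    Sum.inl 1 :: Sum.inr (true, P ++ 1 :: idxQ κ ++ S, 2) :: czG κ 2 ++ (midQ κ).map had ++
    Sum.inl 1 :: Sum.inr (false, [1], 0) :: czG κ 0) = 1
  rw [QC_cnt_append, QC_cnt_append, QC_cnt_append, QC_cnt_append, QC_cnt_false, QC_cnt_false,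
    QC_cnt_inl, QC_cnt_false, QC_cnt_nt, QC_cnt_had, QC_cnt_inl, QC_cnt_true, OQ_cnt_cz,
    QC_cnt_inl, QC_cnt_false, OQ_cnt_cz]

theorem OQS_circP {P S : List Bool → List ℕ} (hP : NPC.Poly P) (hS : NPC.Poly S)
    {κ : List Bool → ℕ} (hκ : UPoly κ) :
    NPC.Poly (fun x : List Bool => circS (P x) (S x) (κ x)) := by
  have hm : NPC.Poly (fun x : List Bool => midQ (κ x)) := QI_lift QC_mid hκ
  have hi : NPC.Poly (fun x : List Bool => idxQ (κ x)) := QI_lift QC_idx hκ
  have ho : NPC.Poly (fun x : List Bool =>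
      (Sum.inr (true, P x ++ 1 :: idxQ (κ x) ++ S x, 2) : Gate)) :=
    QC_gate true (NPC.Poly.append (NPC.Poly.append hP (NPC.Poly.cons (NPC.Poly.const 1) hi)) hS) 2
  have h : NPC.Poly (fun x : List Bool => ((List.replicate (6 + 3 * κ x) () : List Unit),
      nt 1 :: nt 2 :: had 2 :: nt 3 :: (midQ (κ x)).map nt ++ (midQ (κ x)).map had ++ had 1 ::
      Sum.inr (true, P x ++ 1 :: idxQ (κ x) ++ S x, 2) :: czG (κ x) 2 ++ (midQ (κ x)).map had ++
      had 1 :: Sum.inr (false, [1], 0) :: czG (κ x) 0)) := by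
    refine NPC.Poly.pair (QI_nU hκ) ?_
    exact NPC.Poly.append (NPC.Poly.append (NPC.Poly.append (NPC.Poly.append
      (NPC.Poly.cons (NPC.Poly.const _) (NPC.Poly.cons (NPC.Poly.const _) (NPC.Poly.cons
        (NPC.Poly.const _) (NPC.Poly.cons (NPC.Poly.const _) (QC_nt hm)))))
      (QC_had hm)) (NPC.Poly.cons (NPC.Poly.const _) (NPC.Poly.cons ho (OQ_czP 2 hκ))))
      (QC_had hm)) (NPC.Poly.cons (NPC.Poly.const _) (NPC.Poly.cons (NPC.Poly.const _)
        (OQ_czP 0 hκ)))
  exact h

/-- the prefix of the padded strings -/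
def QUg_P (u : List Bool) : List ℕ := (6 + 3 * kap u) :: QU_preO u

/-- the suffix of the padded strings -/
def QUg_S (c : ℕ) (u : List Bool) : List ℕ := 3 :: List.replicate (blen u ^ c) (6 + 3 * kap u)

theorem QUg_accO (c : ℕ) (u : List Bool) {A B : Oracle}
    (hAB : ∀ v, InB u v → A (padc c v) = B v) :
    accProb A (circS (QUg_P u) (QUg_S c u) (kap u)) = (1 + valO (tlU u B) (kap u)) / 2 := by
  have h6 : decide (6 + 3 * kap u = 3) = false := by
    rw [decide_eq_false_iff_not]
    omega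
  rw [OCS_main (kap u) _ _ A (by
    intro j hj
    unfold QUg_P at hj
    rw [List.mem_cons] at hj
    rcases hj with hj | hj
    · exact Or.inr hj
    · exact QU_preO_mem u j hj) (by
    intro j hj
    unfold QUg_S at hj
    rw [List.mem_cons] at hj
    rcases hj with hj | hj
    · exact Or.inl hj
    · exact Or.inr (List.eq_of_mem_replicate hj))]
  congr 2
  refine OV_local _ _ _ fun w hw => ?_
  have h1 : (QUg_P u).map (fun j => decide (j = 3)) = false :: false :: false :: u := by
    unfold QUg_P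
    rw [List.map_cons, QU_preO_map, h6]
  have h2 : (QUg_S c u).map (fun j => decide (j = 3)) =
      true :: List.replicate (blen u ^ c) false := by
    unfold QUg_S
    rw [List.map_cons, List.map_replicate, h6]
    rfl
  have hlen : (false :: false :: (u ++ w)).length = blen u := (PU_mem u w hw).2
  rw [h1, h2]
  show A (false :: false :: false :: u ++ w ++ true :: List.replicate (blen u ^ c) false) =
    B (false :: false :: (u ++ w))
  rw [← hAB _ (PU_mem u w hw)]
  unfold padc
  rw [hlen]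
  simp

theorem QUg : St_QUg := by
  intro c
  refine ⟨fun u => circS (QUg_P u) (QUg_S c u) (kap u), polyTime_bits (OQS_circP ?_ ?_ QU_kap),
    fun u => ⟨(OQS_queries _ _ _).le, fun A B hAB => ⟨fun h => ?_, fun h => ?_⟩⟩⟩
  · exact NPC.Poly.cons QU_n QU_preOP
  · exact NPC.Poly.cons (NPC.Poly.const 3) (QUg_pad c)
  · rw [QUg_accO c u hAB]
    have := dec_half h
    linarith
  · rw [QUg_accO c u hAB]
    have := dec_zero h
    linarith

end Pool.Agent.H440Q.W
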