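import Pool.Agent.H440Q.W.Props
import Pool.Agent.H440Q.W.PU
import Pool.Agent.H516R2.EQP.AL
import Pool.Agent.H620R2.Gauge.C

/-!
# Task YB: almost every oracle
-/

set_option autoImplicit false

namespace Pool.Agent.H440Q.W

open Pool.Agent.NPC Pool.Agent.H620R2.Gauge Finset H568R2 Pool.Agent.H676 Pool.Agent.H516R2.EQP
  Pool.Agent.H516R2.EQP2 Pool.Agent.H516R2.EQP3 Pool.Agent.H516R2.EQP4 Pool.Agent.H591R3.PHG

theorem YB_al (u : List Bool) (A A' : Oracle) (h : ∀ z, InB u z → A z = A' z) :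
    al u A = al u A' := PU_al u A A' h

theorem YB_blen (u : List Bool) : u.length < blen u := by
  unfold blen
  omega

/-- `hat c R B` depends on `R` locally -/
theorem YB_hat (hha : St_HA) (c : ℕ) (R R' B : Oracle) (N : ℕ)
    (h : ∀ z : List Bool, z.length ≤ N → R z = R' z) (w : List Bool) (hw : w.length ≤ N) :
    hat c R B w = hat c R' B w := by
  by_cases hv : ∃ v, w = padc c v
  · obtain ⟨v, rfl⟩ := hv
    rw [hha.2.1, hha.2.1]
  · have hv' : ∀ v, w ≠ padc c v := fun v h => hv ⟨v, h⟩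
    rw [hha.2.2.1 c R B w hv', hha.2.2.1 c R' B w hv']
    exact h w hw

theorem YB_cond_R (hha : St_HA) (c : ℕ) (hid : List Bool → Oracle → Bool)
    (C : List Bool → Bool) (hHL : HLoc hid) (R R' B : Oracle) (N : ℕ)
    (h : ∀ z : List Bool, z.length ≤ N → R z = R' z) (u : List Bool) (hu : blen u ≤ N)
    (hc : Cond (hat c R) hid C u B) : Cond (hat c R') hid C u B := by
  have h1 : hid u (hat c R B) = hid u (hat c R' B) := by
    apply hHL
    intro z hz
    apply YB_hat hha c R R' B N h z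
    have := YB_blen u
    omega
  refine ⟨hc.1, ?_⟩
  rw [← h1]
  exact hc.2

theorem YB_ev_loc (hha : St_HA) (c : ℕ) (hid : List Bool → Oracle → Bool)
    (C : List Bool → Bool) (hHL : HLoc hid) (M : Alg) (p : Polynomial ℕ) (k : ℕ) (B₀ : Oracle)
    (N X N₁ : ℕ) (hN : N ≤ N₁) (hL : LcX M p k X N₁) (R R' : Oracle)
    (h : ∀ z : List Bool, z.length ≤ N₁ → R z = R' z)
    (hE : EvR c hid C M p k B₀ N X N₁ R) : EvR c hid C M p k B₀ N X N₁ R' := by
  constructor
  · intro u hu
    exact YB_cond_R hha c hid C hHL R R' B₀ N₁ h u (hu.trans hN) (hE.1 u hu)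
  · intro B' h1 h2 x hx
    have h3 := hE.2 B' (fun u hu => YB_cond_R hha c hid C hHL R' R B' N₁
      (fun z hz => (h z hz).symm) u hu (h1 u hu)) h2 x hx
    obtain ⟨h4, h5⟩ := hL x hx (hat c R B') (hat c R' B') (YB_hat hha c R R' B' N₁ h)
    rw [← h4, ← h5]
    exact h3

theorem YB_rof (N₁ : ℕ) (R : Oracle) (z : List Bool) (hz : z.length ≤ N₁) :
    rof (2 ^ (N₁ + 1)) (fun i => R (str i.1)) z = R z := by
  have h1 := idx_lt z
  have h2 : 2 ^ (z.length + 1) ≤ 2 ^ (N₁ + 1) := Nat.pow_le_pow_right (by norm_num) (by omega)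
  have h3 : idx z < 2 ^ (N₁ + 1) := by omega
  unfold rof
  rw [dif_pos h3]
  show R (str (idx z)) = R z
  rw [str_idx]

open Classical in
/-- the measure of a set given by the first bits -/
theorem YB_meas (n : ℕ) (P : (Fin n → Bool) → Prop) (δ : ℝ)
    (h : Ex unif (fun a : Fin n → Bool => if P a then (1 : ℝ) else 0) ≤ δ) :
    ranO {R | P (fun i => R (str i.1))} ≤ ENNReal.ofReal δ := by
  have h1 : {R : Oracle | P (fun i => R (str i.1))} ⊆
      ⋃ a ∈ univ.filter (fun a : Fin n → Bool => P a), {R : Oracle | Extends R (List.ofFn a)} := by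
    intro R hR
    rw [Set.mem_iUnion₂]
    refine ⟨fun i => R (str i.1), Finset.mem_filter.2 ⟨Finset.mem_univ _, hR⟩, ?_⟩
    intro i hi
    rw [List.getElem_ofFn]
  refine (MeasureTheory.measure_mono h1).trans
    ((MeasureTheory.measure_biUnion_finset_le _ _).trans ?_)
  have h2 : ∀ a ∈ univ.filter (fun a : Fin n → Bool => P a),
      ranO {R : Oracle | Extends R (List.ofFn a)} ≤ ENNReal.ofReal ((1 / 2 : ℝ) ^ n) := by
    intro a _
    have h3 := ranO_extends (fun B => B) ∅ (fun _ _ _ => rfl) (List.ofFn a)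
    refine h3.trans (ENNReal.ofReal_le_ofReal (le_of_eq ?_))
    simp only [Set.mem_empty_iff_false, Finset.filter_false, Finset.card_empty, Nat.cast_zero,
      List.length_ofFn, zero_sub]
    rw [Real.rpow_neg (by norm_num), Real.rpow_natCast, one_div, inv_pow]
  refine (Finset.sum_le_sum h2).trans ?_
  rw [Finset.sum_const, nsmul_eq_mul, ← ENNReal.ofReal_natCast,
    ← ENNReal.ofReal_mul (Nat.cast_nonneg _)]
  apply ENNReal.ofReal_le_ofReal
  refine le_trans (le_of_eq ?_) h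
  unfold Ex
  have h4 : ∀ a : Fin n → Bool, (∏ i, unif (a i)) * (if P a then (1 : ℝ) else 0) =
      if P a then (1 / 2 : ℝ) ^ n else 0 := by
    intro a
    have h5 : ∏ i, unif (a i) = (1 / 2 : ℝ) ^ n := by
      have : ∀ i ∈ (univ : Finset (Fin n)), unif (a i) = (1 / 2 : ℝ) := fun i _ => rfl
      rw [Finset.prod_congr rfl this, Finset.prod_const, Finset.card_univ, Fintype.card_fin]
    rw [h5]
    by_cases hP : P a
    · rw [if_pos hP, if_pos hP, mul_one]
    · rw [if_neg hP, if_neg hP, mul_zero]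
  rw [Finset.sum_congr rfl (fun a _ => h4 a), ← Finset.sum_filter, Finset.sum_const,
    nsmul_eq_mul]

theorem YB (hym : St_YM) (hc : St_CL) (hha : St_HA) : St_YB := by
  intro c hid C hHL
  have hym' := fun (θ : Alg × Polynomial ℕ × ℕ × ℕ) (j : ℕ) =>
    hym c hid C hHL θ.1 θ.2.1 θ.2.2.1 θ.2.2.2 ((1 / 2 : ℝ) ^ j) (by positivity)
  choose X N₁ hN hL hE using hym'
  have hcp : Countable (Polynomial ℕ) := CC.poly_countable
  obtain ⟨Ev, hEv⟩ : ∃ Ev : (Alg × Polynomial ℕ × ℕ × (Σ N : ℕ, (Fin (2 ^ (N + 1)) → Bool))) →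
      ℕ → Set Oracle, ∀ M p k N b j R, R ∈ Ev (M, p, k, ⟨N, b⟩) j ↔
        EvR c hid C M p k (rof _ b) N (X (M, p, k, N) j) (N₁ (M, p, k, N) j) R :=
    ⟨fun θ j => {R | EvR c hid C θ.1 θ.2.1 θ.2.2.1 (rof _ θ.2.2.2.2) θ.2.2.2.1
      (X (θ.1, θ.2.1, θ.2.2.1, θ.2.2.2.1) j) (N₁ (θ.1, θ.2.1, θ.2.2.1, θ.2.2.2.1) j) R},
      fun _ _ _ _ _ _ _ => Iff.rfl⟩
  refine ⟨⋃ θ, ⋂ j, Ev θ j, ?_, ?_⟩
  · rw [MeasureTheory.measure_iUnion_null_iff]
    rintro ⟨M, p, k, ⟨N, b⟩⟩
    have h1 : ∀ j : ℕ, ranO (⋂ j, Ev (M, p, k, ⟨N, b⟩) j) ≤ ENNReal.ofReal ((1 / 2 : ℝ) ^ j) := by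
      intro j
      refine (MeasureTheory.measure_mono (Set.iInter_subset _ j)).trans ?_
      refine le_trans (MeasureTheory.measure_mono ?_) (YB_meas (2 ^ (N₁ (M, p, k, N) j + 1))
        (fun a => EvR c hid C M p k (rof _ b) N (X (M, p, k, N) j) (N₁ (M, p, k, N) j) (rof _ a))
        _ (hE (M, p, k, N) j (rof _ b)))
      intro R hR
      rw [hEv] at hR
      exact YB_ev_loc hha c hid C hHL M p k _ N _ _ (hN (M, p, k, N) j) (hL (M, p, k, N) j) R _
        (fun z hz => (YB_rof _ R z hz).symm) hR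
    have h2 : Filter.Tendsto (fun j : ℕ => ENNReal.ofReal ((1 / 2 : ℝ) ^ j)) Filter.atTop
        (nhds 0) := by
      rw [← ENNReal.ofReal_zero]
      exact (ENNReal.continuous_ofReal.tendsto 0).comp
        (tendsto_pow_atTop_nhds_zero_of_lt_one (by norm_num) (by norm_num))
    exact le_antisymm (ge_of_tendsto' h2 h1) bot_le
  · intro R hR M p k B N hVal
    obtain ⟨b, hb⟩ : ∃ b : Fin (2 ^ (N + 1)) → Bool, b = fun i => B (str i.1) := ⟨_, rfl⟩
    have hrof : ∀ z : List Bool, z.length ≤ N → rof (2 ^ (N + 1)) b z = B z := by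
      intro z hz
      rw [hb]
      exact YB_rof N B z hz
    have h1 : R ∉ ⋂ j, Ev (M, p, k, ⟨N, b⟩) j := by
      intro h
      exact hR (Set.mem_iUnion.2 ⟨_, h⟩)
    rw [Set.mem_iInter] at h1
    obtain ⟨j, hj⟩ := not_forall.1 h1
    rw [hEv] at hj
    have hloc : Loc (hat c R) := hha.2.2.2.1 c R
    have hfirst : ∀ u, blen u ≤ N → Cond (hat c R) hid C u (rof (2 ^ (N + 1)) b) := by
      intro u hu
      have h2 : al u (rof (2 ^ (N + 1)) b) = al u B := by
        apply YB_al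
        intro z hz
        apply hrof
        rw [hz.2]
        exact hu
      have h3 : hid u (hat c R (rof (2 ^ (N + 1)) b)) = hid u (hat c R B) := by
        apply hHL
        intro z hz
        apply hloc
        intro w hw
        apply hrof
        have := YB_blen u
        omega
      have h13 := hVal u
      refine ⟨?_, fun hCu => ?_⟩
      · rw [h2]
        exact h13.1
      · rw [h2, h3]
        exact h13.2 hCu
    have h4 : ¬ ∀ B' : Oracle, (∀ u, blen u ≤ N₁ (M, p, k, N) j → Cond (hat c R) hid C u B') →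
        (∀ z : List Bool, z.length ≤ N → B' z = rof (2 ^ (N + 1)) b z) →
        ∀ x : List Bool, x.length ≤ X (M, p, k, N) j →
        (x ∈ lang k (hat c R B') ↔ QO M (p.eval x.length) k true x (hat c R B') = true) :=
      fun h => hj ⟨hfirst, h⟩
    push Not at h4
    obtain ⟨B', h5, h6, x, h7, h8⟩ := h4
    obtain ⟨B'', h9, h10⟩ := hc (hat c R) hid C hloc hHL B' _ h5
    refine ⟨B'', x, h10, ?_, ?_⟩
    · intro z hz
      rw [h9 z (Or.inl (hz.trans (hN (M, p, k, N) j))), h6 z hz, hrof z hz]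
    · obtain ⟨h11, h12⟩ := hL (M, p, k, N) j x h7 (hat c R B'') (hat c R B') (by
        intro z hz
        apply hloc
        intro w hw
        exact h9 w (Or.inl (hw.trans hz)))
      have h12' : QO M (p.eval x.length) k true x (hat c R B'') =
        QO M (p.eval x.length) k true x (hat c R B') := h12
      rw [h11, h12']
      intro h13
      rcases h8 with h8 | h8
      · exact h8.2 (h13.1 h8.1)
      · exact h8.1 (h13.2 h8.2)

end Pool.Agent.H440Q.W
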