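import Pool.Agent.H440Q.W.Props
import Pool.Agent.H440Q.W.FX
import Pool.Agent.H591R3.PHG.LangSig

/-! Task YG: `PH` infinite and `PSPACE ⊆ EQP` for a sparse modification of almost every oracle
(helper228; after `EQP3/YP.lean`). -/

set_option autoImplicit false

namespace Pool.Agent.H440Q.W

open Pool.Agent.NPC Pool.Agent.H620R2.Gauge Finset H568R2 Pool.Agent.H676 Pool.Agent.H516R2.EQP
  Pool.Agent.H516R2.EQP2 Pool.Agent.H516R2.EQP3 Pool.Agent.H516R2.EQP4 Pool.Agent.H591R3.PHG

/-- `M` fails -/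
def YG_bad (c : ℕ) (R : Oracle) (B : Oracle)
    (t : (Alg × Polynomial ℕ × ℕ) ⊕ (Alg × Polynomial ℕ × ℕ)) : Prop :=
  match t with
  | Sum.inl (M, p, k) => ∃ x : List Bool,
      ¬ (x ∈ lang k (hat c R B) ↔ QO M (p.eval x.length) k true x (hat c R B) = true)
  | Sum.inr (M, p, k) => ∃ x : List Bool,
      ¬ (QO M (p.eval x.length) k true x (hat c R B) = true ↔
      al (false :: false :: x) B = 1 / 2)

theorem YG (hp : St_PU) (hq : St_QUg) (hps : St_PS) (hc : St_CL) (hdg : St_DG) (hyb : St_YB)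
    (hyz : St_YZg) (hll : St_LL) (hdq : St_DQ) (hha : St_HA) : St_YG := by
  intro c
  obtain ⟨hid, C, hH, hC0, hPS⟩ := hps
  obtain ⟨Cq, hCq, hCq'⟩ := hq c
  obtain ⟨-, -, -, -, hal, -, -⟩ := hp
  obtain ⟨hl1, hl2⟩ := hll
  obtain ⟨-, hpad, hnp, hLocA, -⟩ := hha
  obtain ⟨Bad, hBad, hyb⟩ := hyb c hid C hH
  refine ⟨Bad, hBad, fun R hR => ?_⟩
  have hy := hyb R hR
  have hz := hyz c R hid C hH hC0
  have hLoc : Loc (hat c R) := hLocA c R
  have hval : ∀ (u : List Bool) (B B' : Oracle), (∀ z : List Bool, z.length ≤ blen u →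
      B z = B' z) → al u B = al u B' := by
    intro u B B' h
    exact hal u B B' (fun z hz => h z (le_of_eq hz.2))
  have hat_eq : ∀ (B B' : Oracle) (N : ℕ), (∀ z : List Bool, z.length ≤ N → B z = B' z) →
      ∀ z : List Bool, z.length ≤ N → hat c R B z = hat c R B' z := by
    intro B B' N h z hz
    exact hLoc B B' z fun w hw => h w (hw.trans hz)
  have g1 : ∃ B, Val (hat c R) hid C B := by
    obtain ⟨B', -, hB'⟩ := hc (hat c R) hid C hLoc hH (fun _ => false) 0 (fun u hu => by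
      unfold blen at hu
      omega)
    exact ⟨B', hB'⟩
  have g2 : ∀ B : Oracle, (∀ N : ℕ, ∃ B' : Oracle, Val (hat c R) hid C B' ∧
      ∀ z : List Bool, z.length ≤ N → B' z = B z) → Val (hat c R) hid C B := by
    intro B h u
    obtain ⟨B', hB', he⟩ := h (blen u)
    have h1 : al u B' = al u B := hval u B' B he
    have hlen : u.length ≤ blen u := by
      unfold blen
      omega
    have h2 : hid u (hat c R B') = hid u (hat c R B) := by
      apply hH
      intro z hz
      exact hat_eq B' B (blen u) he z (by omega)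
    have h3 := hB' u
    unfold Cond at h3 ⊢
    rw [h1, h2] at h3
    exact h3
  have g3 : ∀ (t : (Alg × Polynomial ℕ × ℕ) ⊕ (Alg × Polynomial ℕ × ℕ)) (B : Oracle) (N : ℕ),
      Val (hat c R) hid C B → ∃ (B' : Oracle) (N' : ℕ), Val (hat c R) hid C B' ∧
      (∀ z : List Bool, z.length ≤ N → B' z = B z) ∧
      ∀ B'' : Oracle, Val (hat c R) hid C B'' →
        (∀ z : List Bool, z.length ≤ N' → B'' z = B' z) → YG_bad c R B'' t := by
    rintro (⟨M, p, k⟩ | ⟨M, p, k⟩) B N hB
    · obtain ⟨B', x, hB', he, hbad⟩ := hy M p k B N hB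
      obtain ⟨N1, hN1⟩ := hl1 k x
      obtain ⟨N2, hN2⟩ := hl2 M (p.eval x.length) k true x
      refine ⟨B', max N1 N2, hB', he, fun B'' _ h'' => ⟨x, ?_⟩⟩
      have h3 := hat_eq B'' B' (max N1 N2) h''
      have e1 := hN1 (hat c R B'') (hat c R B') fun z hz => h3 z (hz.trans (le_max_left _ _))
      have e2 := hN2 (hat c R B'') (hat c R B') fun z hz => h3 z (hz.trans (le_max_right _ _))
      rw [e1, e2]
      exact hbad
    · obtain ⟨B', x, hB', he, hbad⟩ := hz M p k B N hB
      obtain ⟨N2, hN2⟩ := hl2 M (p.eval x.length) k true x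
      refine ⟨B', max (blen (false :: false :: x)) N2, hB', he, fun B'' _ h'' => ⟨x, ?_⟩⟩
      have h3 := hat_eq B'' B' _ h''
      have e1 : al (false :: false :: x) B'' = al (false :: false :: x) B' :=
        hval _ _ _ fun z hz => h'' z (hz.trans (le_max_left _ _))
      have e2 := hN2 (hat c R B'') (hat c R B') fun z hz => h3 z (hz.trans (le_max_right _ _))
      rw [e1, e2]
      exact hbad
  have hcnt : Countable ((Alg × Polynomial ℕ × ℕ) ⊕ (Alg × Polynomial ℕ × ℕ)) := by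
    have h2 : Countable (Polynomial ℕ) := by
      have : Function.Injective (fun p : Polynomial ℕ => (p.toFinsupp.coeff : ℕ →₀ ℕ)) := by
        intro p q h
        ext n
        exact DFunLike.congr_fun h n
      exact this.countable
    infer_instance
  obtain ⟨B, hB, hbad⟩ := hdg ((Alg × Polynomial ℕ × ℕ) ⊕ (Alg × Polynomial ℕ × ℕ))
    (Val (hat c R) hid C) (YG_bad c R) g1 g2 g3
  have hacc1 : ∀ u, al u B = 1 / 2 → 2 / 3 ≤ accProb (hat c R B) (Cq u) := fun u hu =>
    ((hCq' u).2 (hat c R B) B fun v _ => hpad c R B v).1 hu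
  have hacc0 : ∀ u, al u B = 0 → accProb (hat c R B) (Cq u) ≤ 1 / 3 := fun u hu =>
    ((hCq' u).2 (hat c R B) B fun v _ => hpad c R B v).2 hu
  refine ⟨hat c R B, fun y hy => hnp c R B y hy, fun L hL => ?_,
    fun k => ⟨lang k (hat c R B), lang_sig (hat c R B) k, ?_⟩,
    {x | al (false :: false :: x) B = 1 / 2}, ?_, ?_⟩
  · obtain ⟨g, hg, hgx⟩ := hPS (hat c R B) L hL
    refine ⟨fun x => Cq (g x), FX_comp hCq hg, fun x => ⟨(hCq' _).1, fun hxL => ?_,
      fun hxL => ?_⟩⟩
    · exact hacc1 _ (((hB (g x)).2 (hgx x).1).2 ((hgx x).2.1 hxL))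
    · exact hacc0 _ ((hB (g x)).1.resolve_right (fun h => hxL
        ((hgx x).2.2 (((hB (g x)).2 (hgx x).1).1 h))))
  · rintro ⟨V, p, ⟨M, hM⟩, hL⟩
    obtain ⟨x, hx⟩ := hbad (Sum.inl (M, p, k))
    apply hx
    rw [hL x]
    exact hdq M (hat c R B) V (List Bool) (fun y' A' => decide (M.out A' y' = some [true]))
      (hat c R B) (p.eval x.length) k true x hM (fun _ _ => rfl)
  · refine ⟨fun x => Cq (false :: false :: x), FX_comp hCq FX_pre, fun x =>
      ⟨(hCq' _).1, fun hxL => hacc1 _ hxL, fun hxL => hacc0 _ ?_⟩⟩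
    exact (hB _).1.resolve_right hxL
  · rintro ⟨V, p, k, ⟨M, hM⟩, hL⟩
    obtain ⟨x, hx⟩ := hbad (Sum.inr (M, p, k))
    apply hx
    have h1 : Quant (p.eval x.length) V k true x ↔
        QO M (p.eval x.length) k true x (hat c R B) = true :=
      hdq M (hat c R B) V (List Bool) (fun y' A' => decide (M.out A' y' = some [true]))
        (hat c R B) (p.eval x.length) k true x hM (fun _ _ => rfl)
    exact h1.symm.trans (hL x).symm

end Pool.Agent.H440Q.W
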