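import Pool.Agent.H440Q.W.Props

/-!
# The bound, averaging over the first bits
-/

set_option autoImplicit false

namespace Pool.Agent.H440Q.W

open Pool.Agent.NPC Pool.Agent.H620R2.Gauge Finset H568R2 Pool.Agent.H676 Pool.Agent.H516R2.EQP
  Pool.Agent.H516R2.EQP2 Pool.Agent.H516R2.EQP3 Pool.Agent.H516R2.EQP4 Pool.Agent.H591R3.PHG

/-- the position of a leaf -/
def YM_pos (as : List ℕ) (n K N : ℕ) (hN : ∀ g : Idx (Fin K) (8 * n :: pw as),
    idx (lf as n K g) < N) (g : Idx (Fin K) (8 * n :: pw as)) : Fin N := ⟨idx (lf as n K g), hN g⟩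

theorem YM_inj (as : List ℕ) (n K N : ℕ) (hN : ∀ g : Idx (Fin K) (8 * n :: pw as),
    idx (lf as n K g) < N) (hinj : ∀ g g', lf as n K g = lf as n K g' → g = g') :
    Function.Injective (YM_pos as n K N hN) := by
  intro g g' h
  have h1 : idx (lf as n K g) = idx (lf as n K g') := congrArg Fin.val h
  apply hinj
  rw [← str_idx (lf as n K g), h1, str_idx]

open Classical in
theorem YM_rof (as : List ℕ) (n K N : ℕ) (hN : ∀ g : Idx (Fin K) (8 * n :: pw as),
    idx (lf as n K g) < N) (hinj : ∀ g g', lf as n K g = lf as n K g' → g = g')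
    (a : Fin N → Bool) (z : Idx (Fin K) (8 * n :: pw as) → Bool) :
    rof N (fun i => if h : ∃ j, YM_pos as n K N hN j = i then z h.choose else a i) =
      ovw as n K z (rof N a) := by
  have hI := YM_inj as n K N hN hinj
  funext w
  unfold rof ovw
  beta_reduce
  by_cases hw : ∃ g, lf as n K g = w
  · rw [dif_pos hw]
    have hlt : idx w < N := by
      obtain ⟨g, rfl⟩ := hw
      exact hN g
    rw [dif_pos hlt]
    have hex : ∃ j, YM_pos as n K N hN j = ⟨idx w, hlt⟩ := by
      refine ⟨hw.choose, Fin.ext ?_⟩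
      show idx (lf as n K hw.choose) = idx w
      rw [hw.choose_spec]
    show (if h : ∃ j, YM_pos as n K N hN j = ⟨idx w, hlt⟩ then z h.choose else a ⟨idx w, hlt⟩) = _
    rw [dif_pos hex]
    congr 1
    apply hI
    rw [hex.choose_spec]
    apply Fin.ext
    show idx w = idx (lf as n K hw.choose)
    rw [hw.choose_spec]
  · rw [dif_neg hw]
    by_cases hlt : idx w < N
    · rw [dif_pos hlt, dif_pos hlt]
      have hex : ¬ ∃ j, YM_pos as n K N hN j = ⟨idx w, hlt⟩ := by
        rintro ⟨j, hj⟩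
        apply hw
        refine ⟨j, ?_⟩
        have h1 : idx (lf as n K j) = idx w := congrArg Fin.val hj
        rw [← str_idx (lf as n K j), h1, str_idx]
      show (if h : ∃ j, YM_pos as n K N hN j = ⟨idx w, hlt⟩ then z h.choose else
        a ⟨idx w, hlt⟩) = _
      rw [dif_neg hex]
    · rw [dif_neg hlt, dif_neg hlt]

theorem YM_unif_nonneg : ∀ b : Bool, 0 ≤ (unif b : ℝ) := by
  intro b
  unfold unif
  norm_num

theorem YM_unif_sum : ∑ b : Bool, (unif b : ℝ) = 1 := by
  simp [unif]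

open Classical in
theorem YM (hyw : St_YW) (hlf : St_LF) : St_YM := by
  intro c hid C hh M p k N δ hδ
  obtain ⟨as, n, K, X, N₁, hk, has, hK, hNn, hNN, hlen, hloc, hb⟩ := hyw c hid C hh M p k N δ hδ
  obtain ⟨hinj, -⟩ := hlf as n k K hk has hK
  refine ⟨X, N₁, hNN, hloc, fun B₀ => ?_⟩
  have hN : ∀ g : Idx (Fin K) (8 * n :: pw as), idx (lf as n K g) < 2 ^ (N₁ + 1) := by
    intro g
    have h1 := idx_lt (lf as n K g)
    have h2 : 2 ^ ((lf as n K g).length + 1) ≤ 2 ^ (N₁ + 1) :=
      Nat.pow_le_pow_right (by norm_num) (Nat.succ_le_succ (hlen g))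
    omega
  rw [Ex_overwrite (YM_pos as n K _ hN) (YM_inj as n K _ hN hinj)]
  refine le_trans (Ex_mono YM_unif_nonneg (G := fun _ => δ) ?_) (le_of_eq (Ex_const YM_unif_sum δ))
  intro a
  refine le_trans (le_of_eq ?_) (hb B₀ (rof _ a))
  congr 1
  funext z
  rw [YM_rof as n K _ hN hinj a z]

end Pool.Agent.H440Q.W
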