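import Pool.Agent.H440Q.W.AllX
import Pool.Agent.H440Q.W.HA
import Pool.Agent.H440Q.W.QUg
import Pool.Agent.H440Q.W.GYg
import Pool.Agent.H440Q.W.QDg
import Pool.Agent.H440Q.W.YW
import Pool.Agent.H440Q.W.YM
import Pool.Agent.H440Q.W.YB
import Pool.Agent.H440Q.W.YZg
import Pool.Agent.H440Q.W.YG
import Pool.Agent.H440Q.W.YH
import Pool.Agent.H516R2.EQP4.AllY

/-! # The assembly: `PH` infinite, `PSPACE ⊆ BQP` with one question, gauge theorem -/

set_option autoImplicit false

namespace Pool.Agent.H440Q.W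

open Pool.Agent.H516R2.EQP Pool.Agent.H516R2.EQP2 Pool.Agent.H516R2.EQP3 Pool.Agent.H516R2.EQP4

theorem all_HA : St_HA := HA PU

theorem all_YW : St_YW :=
  YW PU all_HY all_CL BL all_VL ML LF LH (QDg all_HA RT) GYg NYg LL all_HA

theorem all_YB : St_YB := YB (YM all_YW LF) all_CL all_HA

theorem all_YG : St_YG :=
  YG PU QUg PS all_CL DG all_YB (YZg PU all_HY all_CL BL all_VL GYg LL all_HA)
    LL DQ all_HA

theorem all_YH : St_YH := YH SPg NNg all_YG

end Pool.Agent.H440Q.W
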