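import Pool.Agent.H440Q.Base
import Pool.Agent.H516R2.EQP4.Props

/-!
# One quantum question: worlds

(The definitions are those of `Pool.Agent.H516R2.EQP3.Props`, `PropsY`, `PropsZ` and
`Pool.Agent.H516R2.EQP4.Props`, for circuits with one question instead of six: only `Inst`, `put`
and `al` are different.)
-/

set_option autoImplicit false

namespace Pool.Agent.H440Q.W

open Pool.Agent.NPC Pool.Agent.H620R2.Gauge Finset H568R2 Pool.Agent.H676 Pool.Agent.H516R2.EQP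
  Pool.Agent.H516R2.EQP2 Pool.Agent.H516R2.EQP3 Pool.Agent.H516R2.EQP4 Pool.Agent.H591R3.PHG

/-- good functions cannot distinguish yes-instances from random points -/
def St_STY : Prop := ∀ (J : ℕ) (p : Polynomial ℕ), ∃ m₀ : ℕ, ∀ m ≥ m₀, 1 ≤ p.eval (8 * m) →
  ∀ (Ω : Type) [Fintype Ω] [Nonempty Ω] (h : Ω → (Cube (8 * m) → Bool) → Bool) (ε : ℝ), 0 ≤ ε →
  (∀ ω, Good (8 * m) (p.eval (8 * m)) J (h ω)) →
  (∀ a, YesO a → 1 - ε ≤ (∑ ω, br (h ω) a) / (Fintype.card Ω : ℝ)) →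
  1 - ε - (1 / 2) ^ m ≤ (∑ ω, av (br (h ω))) / (Fintype.card Ω : ℝ)

/-- `a` is a yes-instance or a no-instance -/
def Inst {κ : ℕ} (b : Bool) (a : Cube κ → Bool) : Prop := if b then YesO a else NoO a

/-- good functions cannot distinguish yes- or no-instances from random points -/
def St_ST : Prop := ∀ (J : ℕ) (p : Polynomial ℕ), ∃ m₀ : ℕ, ∀ m ≥ m₀, 1 ≤ p.eval (8 * m) →
  ∀ (Ω : Type) [Fintype Ω] [Nonempty Ω] (h : Ω → (Cube (8 * m) → Bool) → Bool) (ε : ℝ) (b : Bool),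
  0 ≤ ε → (∀ ω, Goods (8 * m) (p.eval (8 * m)) J (h ω)) →
  (∀ a, Inst b a → 1 - ε ≤ (∑ ω, br (h ω) a) / (Fintype.card Ω : ℝ)) →
  1 - ε - (1 / 2) ^ m ≤ (∑ ω, av (br (h ω))) / (Fintype.card Ω : ℝ)

/-- there are yes-instances and no-instances -/
def St_EX : Prop := ∀ (κ : ℕ), 16 ≤ κ → ∀ b : Bool, ∃ a : Cube κ → Bool, Inst b a

/-- put the instance `a` into the block `u` -/
def put (u : List Bool) (a : Cube (kap u) → Bool) (B : Oracle) : Oracle :=
  Pool.Agent.H516R2.EQP3.put u (sgm a) B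

/-- the decoded number computed by the circuits for the block `u` -/
noncomputable def al (u : List Bool) (A : Oracle) : ℝ := dec (valO (tlU u A) (kap u))

/-- facts about the blocks -/
def St_PU : Prop :=
  (∀ u v z : List Bool, InB u z → InB v z → u = v) ∧
  (∀ (u z : List Bool) (a : Cube (kap u) → Bool) (B : Oracle), ¬ InB u z → put u a B z = B z) ∧
  (∀ (u z : List Bool) (a : Cube (kap u) → Bool) (B B' : Oracle), InB u z →
    put u a B z = put u a B' z) ∧
  (∀ (u v : List Bool) (a : Cube (kap u) → Bool) (b : Cube (kap v) → Bool) (B : Oracle), u ≠ v →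
    put u a (put v b B) = put v b (put u a B)) ∧
  (∀ (u : List Bool) (A A' : Oracle), (∀ z, InB u z → A z = A' z) → al u A = al u A') ∧
  (∀ (u : List Bool) (a : Cube (kap u) → Bool) (B : Oracle),
    (YesO a → al u (put u a B) = 1 / 2) ∧ (NoO a → al u (put u a B) = 0)) ∧
  (∀ (u z : List Bool) (B : Oracle), (∃ c, ∀ a : Cube (kap u) → Bool, put u a B z = c) ∨
    ∃ (i : Cube (kap u)) (c : Bool), ∀ a : Cube (kap u) → Bool, put u a B z = (a i ^^ c))

/-- the circuits for the blocks -/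
def St_QU : Prop := ∃ C : List Bool → List Unit × List Gate, PolyTime (fun u => bits (C u)) ∧
  ∀ u, queries (C u) ≤ 1 ∧ ∀ A : Oracle, (al u A = 1 / 2 → 2 / 3 ≤ accProb A (C u)) ∧
    (al u A = 0 → accProb A (C u) ≤ 1 / 3)

/-- fill the blocks -/
def fil : (us : List (List Bool)) → FT us → Oracle → Oracle
  | [], _, B => B
  | u :: us, ω, B => fil us ω.2 (put u ω.1 B)

/-- `G` is true whenever the blocks are filled with instances of the kinds given by `hid` -/
def VG (hid : List Bool → Oracle → Bool) (G : Oracle → Bool) : List (List Bool) → Oracle → Prop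
  | [], B => G B = true
  | u :: us, B => ∀ a : Cube (kap u) → Bool, Inst (hid u B) a → VG hid G us (put u a B)

/-- the hybrid argument -/
def St_HY : Prop := ∀ (J : ℕ) (p : Polynomial ℕ), ∃ m₀ : ℕ, ∀ us : List (List Bool), us.Nodup →
  (∀ u ∈ us, m₀ ≤ mu u ∧ 1 ≤ p.eval (kap u)) →
  ∀ (hid : List Bool → Oracle → Bool) (G : Oracle → Bool),
  (∀ u ∈ us, ∀ B, Goods (kap u) (p.eval (kap u)) J (fun a => G (put u a B))) →
  ∀ B, VG hid G us B → 1 - (us.map (fun u => (1 / 2 : ℝ) ^ mu u)).sum ≤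
    (∑ ω : FT us, if G (fil us ω B) then (1 : ℝ) else 0) / (Fintype.card (FT us) : ℝ)

/-- the condition for the block `u` -/
def Cond (Φ : Oracle → Oracle) (hid : List Bool → Oracle → Bool) (C : List Bool → Bool)
    (u : List Bool) (B : Oracle) : Prop :=
  (al u B = 0 ∨ al u B = 1 / 2) ∧ (C u = true → (al u B = 1 / 2 ↔ hid u (Φ B) = true))

/-- all conditions hold -/
def Val (Φ : Oracle → Oracle) (hid : List Bool → Oracle → Bool) (C : List Bool → Bool)
    (B : Oracle) : Prop := ∀ u, Cond Φ hid C u B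

/-- completion -/
def St_CL : Prop := ∀ (Φ : Oracle → Oracle) (hid : List Bool → Oracle → Bool)
  (C : List Bool → Bool), Loc Φ → HLoc hid → ∀ (B : Oracle) (N : ℕ),
  (∀ u, blen u ≤ N → Cond Φ hid C u B) →
  ∃ B' : Oracle, (∀ z : List Bool, (z.length ≤ N ∨ ∀ u, ¬ InB u z) → B' z = B z) ∧
    Val Φ hid C B'

/-- filling the blocks of the list with the right instances gives an oracle which satisfies the
conditions -/
def St_VL : Prop := ∀ (Φ : Oracle → Oracle) (hid : List Bool → Oracle → Bool)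
  (C : List Bool → Bool), Loc Φ → HLoc hid → ∀ (us : List (List Bool)) (n N : ℕ), us.Nodup →
  us.Pairwise (fun u v => u.length ≤ v.length) →
  (∀ u, u ∈ us ↔ (n < u.length ∧ blen u ≤ N ∧ C u = true)) →
  ∀ (G : Oracle → Bool) (B : Oracle), (∀ u, u ∉ us → blen u ≤ N → Cond Φ hid C u B) →
  (∀ B' : Oracle, (∀ z, (∀ u ∈ us, ¬ InB u z) → B' z = B z) →
    (∀ u, blen u ≤ N → Cond Φ hid C u B') → G B' = true) →
  VG (fun u A => hid u (Φ A)) G us B

/-- oracle algorithms relative to the coded oracle are good functions of the content of a block -/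
def St_GX : Prop := ∀ Φ : Oracle → Oracle, (∀ w, Node Φ w) → ∀ M : Alg,
  ∃ (J : ℕ) (P : Polynomial ℕ), ∀ (u x : List Bool), x.length ≤ kap u → 1 ≤ P.eval (kap u) ∧
    ∀ (B : Oracle) (c : Bool), Goods (kap u) (P.eval (kap u)) J (fun a =>
      decide (M.out (Φ (put u a B)) x = some [true]) ^^ c)

/-- one step of the construction: some oracle extending `B` makes the algorithm `M` fail on some
input -/
def St_XS : Prop := ∀ (Φ : Oracle → Oracle) (hid : List Bool → Oracle → Bool)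
  (C : List Bool → Bool), (∀ w, Node Φ w) → Loc Φ → HLoc hid →
  (∀ x, C (false :: false :: x) = false) → ∀ (M : Alg) (B : Oracle) (N : ℕ), Val Φ hid C B →
  ∃ (B' : Oracle) (x : List Bool), Val Φ hid C B' ∧
    (∀ z : List Bool, z.length ≤ N → B' z = B z) ∧
    ¬ (M.out (Φ B') x = some [true] ↔ al (false :: false :: x) B' = 1 / 2)

/-- the theorem -/
def St_FX : Prop := ∃ A : Oracle, (∀ L, IsPH A L ↔ IsP A L) ∧ (∀ L, IsPSPACE A L → IsBQPq 1 A L) ∧
  ∃ L, IsBQPq 1 A L ∧ ¬ IsP A L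

/-- quantified oracle algorithms are good functions of the content of a block -/
def St_GY : Prop := ∀ (M : Alg) (k : ℕ) (p q : Polynomial ℕ), ∃ P : Polynomial ℕ,
  ∀ (u y : List Bool) (m : ℕ), y.length ≤ q.eval (kap u) → m ≤ p.eval (kap u) →
    1 ≤ P.eval (kap u) ∧ ∀ (B : Oracle) (b c : Bool),
      Goods (kap u) (P.eval (kap u)) k (fun a => QO M m k b y (put u a B) ^^ c)

/-- oracle algorithms are decision trees in the bits at the leaves -/
def St_QD : Prop := ∀ (M : Alg) (as : List ℕ) (n K : ℕ),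
  (∀ g g', lf as n K g = lf as n K g' → g = g') → (∀ g u, ¬ InB u (lf as n K g)) →
  ∀ (us : List (List Bool)) (ω : FT us) (B : Oracle) (y : List Bool), DTr (M.p.eval y.length)
    (fun z : Idx (Fin K) (8 * n :: pw as) → Bool =>
      decide (M.out (fil us ω (ovw as n K z B)) y = some [true]))

/-- one step of the construction -/
def St_YS : Prop := ∀ (hid : List Bool → Oracle → Bool) (C : List Bool → Bool), HLoc hid →
  ∀ (M : Alg) (p : Polynomial ℕ) (k : ℕ) (B : Oracle) (N : ℕ), Val (fun A => A) hid C B →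
  ∃ (B' : Oracle) (x : List Bool), Val (fun A => A) hid C B' ∧
    (∀ z : List Bool, z.length ≤ N → B' z = B z) ∧
    ¬ (x ∈ lang k B' ↔ QO M (p.eval x.length) k true x B' = true)

/-- the theorem -/
def St_YF : Prop := ∃ A : Oracle, (∀ L, IsPSPACE A L → IsBQPq 1 A L) ∧
  ∀ k : ℕ, ∃ L, IsSig A (k + 1) L ∧ ¬ IsSig A k L

/-- quantified oracle algorithms fail on the special blocks -/
def St_YZ : Prop := ∀ (hid : List Bool → Oracle → Bool) (C : List Bool → Bool), HLoc hid →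
  (∀ x, C (false :: false :: x) = false) →
  ∀ (M : Alg) (p : Polynomial ℕ) (k : ℕ) (B : Oracle) (N : ℕ), Val (fun A => A) hid C B →
  ∃ (B' : Oracle) (x : List Bool), Val (fun A => A) hid C B' ∧
    (∀ z : List Bool, z.length ≤ N → B' z = B z) ∧
    ¬ (QO M (p.eval x.length) k true x B' = true ↔ al (false :: false :: x) B' = 1 / 2)

/-- the theorem -/
def St_YP : Prop := ∃ A : Oracle, (∀ L, IsPSPACE A L → IsBQPq 1 A L) ∧
  (∀ k : ℕ, ∃ L, IsSig A (k + 1) L ∧ ¬ IsSig A k L) ∧ ∃ L, IsBQPq 1 A L ∧ ¬ IsPH A L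

/-- the bits of `Φ (put u a B)` are constant or variables -/
def Lit (Φ : Oracle → Oracle) : Prop := ∀ (u z : List Bool) (B : Oracle),
  (∃ c, ∀ a : Cube (kap u) → Bool, Φ (put u a B) z = c) ∨
    ∃ (i : Cube (kap u)) (c : Bool), ∀ a : Cube (kap u) → Bool, Φ (put u a B) z = (a i ^^ c)

/-- facts about the coding -/
def St_HA : Prop := (∀ (c : ℕ) (v v' : List Bool), padc c v = padc c v' → v = v') ∧
  (∀ (c : ℕ) (R B : Oracle) (v : List Bool), hat c R B (padc c v) = B v) ∧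
  (∀ (c : ℕ) (R B : Oracle) (w : List Bool), (∀ v, w ≠ padc c v) → hat c R B w = R w) ∧
  (∀ (c : ℕ) (R : Oracle), Loc (hat c R)) ∧ ∀ (c : ℕ) (R : Oracle), Lit (hat c R)

/-- oracle algorithms relative to `Φ B` are good functions of the content of a block -/
def GoodW (Φ : Oracle → Oracle) : Prop := ∀ M : Alg,
  ∃ (J : ℕ) (P : Polynomial ℕ), ∀ (u x : List Bool), x.length ≤ kap u → 1 ≤ P.eval (kap u) ∧
    ∀ (B : Oracle) (c : Bool), Goods (kap u) (P.eval (kap u)) J (fun a =>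
      decide (M.out (Φ (put u a B)) x = some [true]) ^^ c)

/-- the coding of NP questions keeps goodness -/
def St_GXg : Prop := ∀ Φ : Oracle → Oracle, (∀ w, Node Φ w) → ∀ Ψ : Oracle → Oracle, Lit Ψ →
  Loc Ψ → GoodW (fun B => Φ (Ψ B))

/-- one step of the construction -/
def St_XSg : Prop := ∀ (Φ : Oracle → Oracle) (hid : List Bool → Oracle → Bool)
  (C : List Bool → Bool), GoodW Φ → Loc Φ → HLoc hid →
  (∀ x, C (false :: false :: x) = false) → ∀ (M : Alg) (B : Oracle) (N : ℕ), Val Φ hid C B →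
  ∃ (B' : Oracle) (x : List Bool), Val Φ hid C B' ∧
    (∀ z : List Bool, z.length ≤ N → B' z = B z) ∧
    ¬ (M.out (Φ B') x = some [true] ↔ al (false :: false :: x) B' = 1 / 2)

/-- the circuits for the padded blocks -/
def St_QUg : Prop := ∀ c : ℕ, ∃ C : List Bool → List Unit × List Gate,
  PolyTime (fun u => bits (C u)) ∧ ∀ u, queries (C u) ≤ 1 ∧ ∀ A B : Oracle,
    (∀ v, InB u v → A (padc c v) = B v) → (al u B = 1 / 2 → 2 / 3 ≤ accProb A (C u)) ∧
      (al u B = 0 → accProb A (C u) ≤ 1 / 3)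

/-- every oracle can be changed at the coded strings such that `P = PH` and
`PSPACE ⊆ EQP ≠ P` -/
def St_XG : Prop := ∀ K : ℕ, 1 ≤ K → ∃ R' : ℕ → Polynomial ℕ,
  (∀ e n, (n + e + 1) ^ K ≤ (R' e).eval n) ∧ ∀ R : Oracle, ∃ A : Oracle,
    (∀ y, y ∉ Tcd K R' → A y = R y) ∧ (∀ L, IsPH A L ↔ IsP A L) ∧
    (∀ L, IsPSPACE A L → IsBQPq 1 A L) ∧ ∃ L, IsBQPq 1 A L ∧ ¬ IsP A L

/-- the first theorem -/
def St_XH : Prop := ∀ f : ℕ → ℝ,
  Null f {A : Oracle | (∀ L, IsPH A L ↔ IsP A L) ∧ (∀ L, IsPSPACE A L → IsBQPq 1 A L) ∧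
      ∃ L, IsBQPq 1 A L ∧ ¬ IsP A L} ↔
    ∀ ε : ℝ, 0 < ε → ∃ᶠ N : ℕ in Filter.atTop, f N ≤ 2 ^ (Real.logb 2 N) ^ ε

/-- quantified oracle algorithms are good functions of the content of a block -/
def St_GYg : Prop := ∀ (M : Alg) (k : ℕ) (p q : Polynomial ℕ), ∃ P : Polynomial ℕ,
  ∀ Ψ : Oracle → Oracle, Lit Ψ → ∀ (u y : List Bool) (m : ℕ), y.length ≤ q.eval (kap u) →
    m ≤ p.eval (kap u) → 1 ≤ P.eval (kap u) ∧ ∀ (B : Oracle) (b c : Bool),
      Goods (kap u) (P.eval (kap u)) k (fun a => QO M m k b y (Ψ (put u a B)) ^^ c)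

/-- oracle algorithms are decision trees in the bits at the leaves -/
def St_QDg : Prop := ∀ (M : Alg) (as : List ℕ) (n K : ℕ),
  (∀ g g', lf as n K g = lf as n K g' → g = g') → (∀ g, ∃ r, lf as n K g = true :: r) →
  ∀ (c : ℕ) (B R : Oracle) (y : List Bool), DTr (M.p.eval y.length)
    (fun z : Idx (Fin K) (8 * n :: pw as) → Bool =>
      decide (M.out (hat c (ovw as n K z R) B) y = some [true]))

/-- all valid extensions of `B₀` (up to length `N₁`) give the right answers on all inputs of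
length at most `X` -/
def EvR (c : ℕ) (hid : List Bool → Oracle → Bool) (C : List Bool → Bool) (M : Alg)
    (p : Polynomial ℕ) (k : ℕ) (B₀ : Oracle) (N X N₁ : ℕ) (R : Oracle) : Prop :=
  (∀ u, blen u ≤ N → Cond (hat c R) hid C u B₀) ∧
  ∀ B' : Oracle, (∀ u, blen u ≤ N₁ → Cond (hat c R) hid C u B') →
    (∀ z : List Bool, z.length ≤ N → B' z = B₀ z) → ∀ x : List Bool, x.length ≤ X →
    (x ∈ lang k (hat c R B') ↔ QO M (p.eval x.length) k true x (hat c R B') = true)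

/-- strings up to length `N₁` decide -/
def LcX (M : Alg) (p : Polynomial ℕ) (k X N₁ : ℕ) : Prop :=
  ∀ x : List Bool, x.length ≤ X → ∀ A A' : Oracle,
    (∀ z : List Bool, z.length ≤ N₁ → A z = A' z) → (x ∈ lang k A ↔ x ∈ lang k A') ∧
      QO M (p.eval x.length) k true x A = QO M (p.eval x.length) k true x A'

open Classical in
/-- the bound, averaging over the bits at the leaves -/
def St_YW : Prop := ∀ (c : ℕ) (hid : List Bool → Oracle → Bool) (C : List Bool → Bool),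
  HLoc hid → ∀ (M : Alg) (p : Polynomial ℕ) (k N : ℕ) (δ : ℝ), 0 < δ →
  ∃ (as : List ℕ) (n K X N₁ : ℕ), as.length = k + 1 ∧ (∀ a ∈ as, 1 ≤ a) ∧ K ≤ 2 ^ (n + 11) ∧
    N ≤ n ∧ N ≤ N₁ ∧ (∀ g, (lf as n K g).length ≤ N₁) ∧ LcX M p k X N₁ ∧
    ∀ B₀ R : Oracle, Ex (ber (1 / 2)) (fun z : Idx (Fin K) (8 * n :: pw as) → Bool =>
      if EvR c hid C M p k B₀ N X N₁ (ovw as n K z R) then (1 : ℝ) else 0) ≤ δ

open Classical in
/-- the bound, averaging over the first bits -/
def St_YM : Prop := ∀ (c : ℕ) (hid : List Bool → Oracle → Bool) (C : List Bool → Bool),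
  HLoc hid → ∀ (M : Alg) (p : Polynomial ℕ) (k N : ℕ) (δ : ℝ), 0 < δ →
  ∃ X N₁ : ℕ, N ≤ N₁ ∧ LcX M p k X N₁ ∧
    ∀ B₀ : Oracle, Ex unif (fun a : Fin (2 ^ (N₁ + 1)) → Bool =>
      if EvR c hid C M p k B₀ N X N₁ (rof _ a) then (1 : ℝ) else 0) ≤ δ

/-- for almost every `R`, every valid oracle has a valid extension that makes the algorithm fail -/
def St_YB : Prop := ∀ (c : ℕ) (hid : List Bool → Oracle → Bool) (C : List Bool → Bool),
  HLoc hid → ∃ Bad : Set Oracle, ranO Bad = 0 ∧ ∀ R, R ∉ Bad →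
  ∀ (M : Alg) (p : Polynomial ℕ) (k : ℕ) (B : Oracle) (N : ℕ), Val (hat c R) hid C B →
  ∃ (B' : Oracle) (x : List Bool), Val (hat c R) hid C B' ∧
    (∀ z : List Bool, z.length ≤ N → B' z = B z) ∧
    ¬ (x ∈ lang k (hat c R B') ↔ QO M (p.eval x.length) k true x (hat c R B') = true)

/-- quantified oracle algorithms fail on the special blocks -/
def St_YZg : Prop := ∀ (c : ℕ) (R : Oracle) (hid : List Bool → Oracle → Bool)
  (C : List Bool → Bool), HLoc hid → (∀ x, C (false :: false :: x) = false) →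
  ∀ (M : Alg) (p : Polynomial ℕ) (k : ℕ) (B : Oracle) (N : ℕ), Val (hat c R) hid C B →
  ∃ (B' : Oracle) (x : List Bool), Val (hat c R) hid C B' ∧
    (∀ z : List Bool, z.length ≤ N → B' z = B z) ∧
    ¬ (QO M (p.eval x.length) k true x (hat c R B') = true ↔
      al (false :: false :: x) B' = 1 / 2)

/-- almost every oracle can be changed at the padded strings such that `PH` is infinite and
`PSPACE ⊆ EQP` -/
def St_YG : Prop := ∀ c : ℕ, ∃ Bad : Set Oracle, ranO Bad = 0 ∧ ∀ R, R ∉ Bad → ∃ A : Oracle,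
  (∀ y, (∀ v, y ≠ padc c v) → A y = R y) ∧ (∀ L, IsPSPACE A L → IsBQPq 1 A L) ∧
  (∀ k : ℕ, ∃ L, IsSig A (k + 1) L ∧ ¬ IsSig A k L) ∧ ∃ L, IsBQPq 1 A L ∧ ¬ IsPH A L

/-- the second theorem -/
def St_YH : Prop := ∀ f : ℕ → ℝ,
  Null f {A : Oracle | (∀ L, IsPSPACE A L → IsBQPq 1 A L) ∧
      (∀ k : ℕ, ∃ L, IsSig A (k + 1) L ∧ ¬ IsSig A k L) ∧ ∃ L, IsBQPq 1 A L ∧ ¬ IsPH A L} ↔
    ∀ ε : ℝ, 0 < ε → ∃ᶠ N : ℕ in Filter.atTop, f N ≤ 2 ^ (Real.logb 2 N) ^ ε

end Pool.Agent.H440Q.W
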