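import Pool.Agent.H440Q.W.YH
import Pool.Agent.H440Q.W.COs
import Pool.Agent.H440Q.W.GXg
import Pool.Agent.H440Q.W.XSg
import Pool.Agent.H440Q.W.XG
import Pool.Agent.H440Q.W.AllX
import Pool.Agent.H440Q.W.AllY

/-!
# The first gauge theorem
-/

set_option autoImplicit false

namespace Pool.Agent.H440Q.W

open Pool.Agent.NPC Pool.Agent.H620R2.Gauge Finset H568R2 Pool.Agent.H676 Pool.Agent.H516R2.EQP
  Pool.Agent.H516R2.EQP2 Pool.Agent.H516R2.EQP3 Pool.Agent.H516R2.EQP4 Pool.Agent.H591R3.PHG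

theorem XH (hsp : St_SPg) (hnn : St_NNg) (hxg : St_XG) : St_XH := by
  intro f
  constructor
  · intro hnull ε hε
    by_contra hcon
    rw [Filter.not_frequently] at hcon
    obtain ⟨K, hK⟩ := hsp ε hε
    obtain ⟨R', hR', hA⟩ := hxg (K + 1) (by omega)
    refine hnn f (Tcd (K + 1) R') _ ∅ ?_ (by simp) ?_ hnull
    · filter_upwards [hK (K + 1) (by omega) R' hR', hcon] with N h1 h2
      exact h1.trans (not_le.1 h2).le
    · intro R _
      obtain ⟨A, h1, h2, h3, h4⟩ := hA R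
      exact ⟨A, ⟨h2, h3, h4⟩, h1⟩
  · intro hf
    refine nullQ hf _ ?_
    rintro A ⟨-, h2, -⟩
    exact (YH_isBQP (h2 _ (hitLang_np A).isPSPACE)).withAdvice

theorem all_XG : St_XG :=
  XG PU QUg PS all_CL DG (XSg PU all_HY all_CL BL all_VL) (GXg RT (SW LO RT)) COs CP LO all_HA

theorem all_XH : St_XH := XH SPg NNg all_XG

end Pool.Agent.H440Q.W
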